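import Pool.Agent.Helper12.LN.Min

/-!
# Strands, their chords, and the exchange of sublists

See `Min.lean`.  The main result is `exists_min` : among all systems of geodesic strands with the
same ends and the same multisets of used doors and visited nodes, one in which any two strands
interleave in at most one node.
-/

namespace H12LN

section Strand
variable {P U : Type*} (node : P → U) (mate : P → P)

/-- the chords of a list of leaving doors, without the last one -/
def pairs : P → List P → List (P × P)
  | _, [] => []
  | t, d :: l => (t, d) :: pairs (mate d) l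

/-- the port of arrival -/
def arr : P → List P → P
  | t, [] => t
  | _, d :: l => arr (mate d) l

/-- the chords of the strand from `t` to `t'` with leaving doors `l` -/
def chords : P → List P → P → List (P × P)
  | t, [], t' => [(t, t')]
  | t, d :: l, t' => (t, d) :: chords (mate d) l t'

/-- first element, with a default -/
def hd : List P → P → P
  | [], t' => t'
  | d :: _, _ => d

/-- all chords but the first -/
def tl : List P → P → List (P × P)
  | [], _ => []
  | d :: l, t' => chords mate (mate d) l t'

/-- the reversed list -/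
def rev (l : List P) : List P := (l.map mate).reverse

/-- the inner chords of a list of doors -/
def mid : List P → List (P × P)
  | [] => []
  | d :: l => pairs mate (mate d) l

theorem chords_eq (t : P) (l : List P) (t' : P) :
    chords mate t l t' = (t, hd l t') :: tl mate l t' := by
  cases l <;> rfl

theorem chords_append (t : P) (l m : List P) (t' : P) :
    chords mate t (l ++ m) t' = pairs mate t l ++ chords mate (arr mate t l) m t' := by
  induction l generalizing t with
  | nil => rfl
  | cons d l ih =>
    change (t, d) :: chords mate (mate d) (l ++ m) t' = _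
    rw [ih]
    rfl

theorem pairs_eq (t : P) (l : List P) (hl : l ≠ []) (e : P) :
    pairs mate t l = (t, hd l e) :: mid mate l := by
  cases l with
  | nil => exact absurd rfl hl
  | cons d l => rfl

theorem arr_append (t : P) (l m : List P) : arr mate t (l ++ m) = arr mate (arr mate t l) m := by
  induction l generalizing t with
  | nil => rfl
  | cons d l ih => exact ih _

theorem hd_append (l m : List P) (e : P) : hd (l ++ m) e = hd l (hd m e) := by
  cases l <;> rfl

theorem hd_of_ne (l : List P) (hl : l ≠ []) (e e' : P) : hd l e = hd l e' := by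
  cases l with
  | nil => exact absurd rfl hl
  | cons d l => rfl

theorem arr_of_ne (l : List P) (hl : l ≠ []) (e e' : P) : arr mate e l = arr mate e' l := by
  cases l with
  | nil => exact absurd rfl hl
  | cons d l => rfl

theorem rev_append (l m : List P) : rev mate (l ++ m) = rev mate m ++ rev mate l := by
  simp [rev]

theorem rev_rev (hmate : ∀ p, mate (mate p) = p) (l : List P) : rev mate (rev mate l) = l := by
  unfold rev
  rw [List.map_reverse, List.reverse_reverse, List.map_map]
  conv_rhs => rw [← List.map_id l]
  apply List.map_congr_left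
  intro a _
  exact hmate a

theorem rev_ne (l : List P) (hl : l ≠ []) : rev mate l ≠ [] := by
  unfold rev
  simpa using hl

theorem arr_eq_hd_rev (p : P) (m : List P) : arr mate p m = hd (rev mate m) p := by
  induction m generalizing p with
  | nil => rfl
  | cons d m ih =>
    change arr mate (mate d) m = _
    rw [ih]
    have : rev mate (d :: m) = rev mate m ++ [mate d] := by simp [rev]
    rw [this, hd_append]
    rfl

theorem hd_eq_arr_rev (hmate : ∀ p, mate (mate p) = p) (p : P) (m : List P) :
    hd m p = arr mate p (rev mate m) := by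
  rw [arr_eq_hd_rev, rev_rev mate hmate]

theorem chords_rev (hmate : ∀ p, mate (mate p) = p) (t : P) (l : List P) (t' : P) :
    chords mate t' (rev mate l) t = ((chords mate t l t').map Prod.swap).reverse := by
  induction l generalizing t with
  | nil => rfl
  | cons d l ih =>
    have h1 : rev mate (d :: l) = rev mate l ++ [mate d] := by simp [rev]
    have h2 : chords mate t (d :: l) t' = (t, d) :: chords mate (mate d) l t' := rfl
    have h3 := ih (mate d)
    rw [h1, h2, List.map_cons, List.reverse_cons, ← h3, chords_append]
    have h4 : chords mate t' (rev mate l) (mate d) =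
        pairs mate t' (rev mate l) ++ [(arr mate t' (rev mate l), mate d)] := by
      have := chords_append mate t' (rev mate l) [] (mate d)
      rw [List.append_nil] at this
      rw [this]
      rfl
    rw [h4, List.append_assoc]
    congr 1
    change [(arr mate t' (rev mate l), mate d), (mate (mate d), t)] = _
    rw [hmate]
    rfl

/-- `c1` is a chord of the strand before the chord `c2` -/
structure Split (t : P) (l : List P) (t' : P) (l1 m l2 : List P) (c1 c2 : P × P) : Prop where
  eq : l = l1 ++ m ++ l2
  ne : m ≠ []
  fst : c1 = (arr mate t l1, hd (m ++ l2) t')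
  snd : c2 = (arr mate t (l1 ++ m), hd l2 t')

theorem Split.rev {mate : P → P} (hmate : ∀ p, mate (mate p) = p) {t : P} {l : List P} {t' : P}
    {l1 m l2 : List P} {c1 c2 : P × P} (h : Split mate t l t' l1 m l2 c1 c2) :
    Split mate t' (H12LN.rev mate l) t (H12LN.rev mate l2) (H12LN.rev mate m)
      (H12LN.rev mate l1) c2.swap c1.swap where
  eq := by rw [h.eq, rev_append, rev_append, List.append_assoc]
  ne := rev_ne mate m h.ne
  fst := by
    rw [h.snd, ← rev_append, Prod.swap_prod_mk, hd_eq_arr_rev mate hmate t',
      ← arr_eq_hd_rev]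
  snd := by
    rw [h.fst, ← rev_append, Prod.swap_prod_mk, hd_eq_arr_rev mate hmate t',
      ← arr_eq_hd_rev]

theorem mem_chords (t : P) (l : List P) (t' : P) (c : P × P) (hc : c ∈ chords mate t l t') :
    ∃ l1 l2, l = l1 ++ l2 ∧ c = (arr mate t l1, hd l2 t') := by
  induction l generalizing t with
  | nil =>
    rw [chords, List.mem_singleton] at hc
    exact ⟨[], [], rfl, hc⟩
  | cons d l ih =>
    rw [chords, List.mem_cons] at hc
    rcases hc with hc | hc
    · exact ⟨[], d :: l, rfl, hc⟩
    · obtain ⟨l1, l2, h1, h2⟩ := ih (mate d) hc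
      exact ⟨d :: l1, l2, by rw [h1]; rfl, h2⟩

theorem exists_split (t : P) (l : List P) (t' : P) (c1 c2 : P × P)
    (h1 : c1 ∈ chords mate t l t') (h2 : c2 ∈ chords mate t l t') (hne : c1 ≠ c2) :
    (∃ l1 m l2, Split mate t l t' l1 m l2 c1 c2) ∨
    (∃ l1 m l2, Split mate t l t' l1 m l2 c2 c1) := by
  obtain ⟨a, b, hab, hc1⟩ := mem_chords mate t l t' c1 h1
  obtain ⟨a', b', hab', hc2⟩ := mem_chords mate t l t' c2 h2
  have h : a ++ b = a' ++ b' := hab.symm.trans hab'
  rcases List.append_eq_append_iff.1 h with ⟨m, h3, h4⟩ | ⟨m, h3, h4⟩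
  · left
    refine ⟨a, m, b', ⟨by rw [hab', h3], ?_, by rw [hc1, h4], by rw [hc2, h3]⟩⟩
    rintro rfl
    apply hne
    rw [hc1, hc2, h3, h4, List.append_nil, List.nil_append]
  · right
    refine ⟨a', m, b, ⟨by rw [hab, h3], ?_, by rw [hc2, h4], by rw [hc1, h3]⟩⟩
    rintro rfl
    apply hne
    rw [hc1, hc2, h3, h4, List.append_nil, List.nil_append]

theorem Split.mem_fst {mate : P → P} {t : P} {l : List P} {t' : P}
    {l1 m l2 : List P} {c1 c2 : P × P} (h : Split mate t l t' l1 m l2 c1 c2) :
    c1 ∈ chords mate t l t' := by
  rw [h.eq, List.append_assoc, chords_append, h.fst, chords_eq]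
  simp

/-- the chords of a split strand -/
theorem Split.perm {mate : P → P} {t : P} {l : List P} {t' : P}
    {l1 m l2 : List P} {c1 c2 : P × P} (h : Split mate t l t' l1 m l2 c1 c2) :
    chords mate t l t' = pairs mate t l1 ++ c1 :: (mid mate m ++ c2 :: tl mate l2 t') := by
  rw [h.eq, List.append_assoc, chords_append, chords_append, h.fst, h.snd, chords_eq,
    pairs_eq mate _ m h.ne (hd l2 t'), arr_append, hd_append]
  rfl

/-- `l` is a walk of doors from the block `u` to the block `v` -/
def Wk : U → List P → U → Prop
  | u, [], v => u = v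
  | u, d :: l, v => node d = u ∧ Wk (node (mate d)) l v

theorem Wk_append (u : U) (l m : List P) (v : U) :
    Wk node mate u (l ++ m) v ↔ ∃ w, Wk node mate u l w ∧ Wk node mate w m v := by
  induction l generalizing u with
  | nil =>
    constructor
    · intro h
      exact ⟨u, rfl, h⟩
    · rintro ⟨w, h1, h2⟩
      have h1 : u = w := h1
      subst h1
      exact h2
  | cons d l ih =>
    constructor
    · rintro ⟨h1, h2⟩
      obtain ⟨w, h3, h4⟩ := (ih _).1 h2
      exact ⟨w, ⟨h1, h3⟩, h4⟩
    · rintro ⟨w, ⟨h1, h3⟩, h4⟩
      exact ⟨h1, (ih _).2 ⟨w, h3, h4⟩⟩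

theorem Wk_arr (t : P) (l : List P) (v : U) (h : Wk node mate (node t) l v) :
    node (arr mate t l) = v := by
  induction l generalizing t with
  | nil => exact h
  | cons d l ih => exact ih (mate d) h.2

theorem Wk_hd (t' : P) (u : U) (l : List P) (h : Wk node mate u l (node t')) :
    node (hd l t') = u := by
  cases l with
  | nil => exact h.symm
  | cons d l => exact h.1

theorem Wk_rev (hmate : ∀ p, mate (mate p) = p) (u : U) (l : List P) (v : U)
    (h : Wk node mate u l v) : Wk node mate v (rev mate l) u := by
  induction l generalizing u with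
  | nil => exact h.symm
  | cons d l ih =>
    have h1 : rev mate (d :: l) = rev mate l ++ [mate d] := by simp [rev]
    rw [h1, Wk_append]
    refine ⟨_, ih _ h.2, rfl, ?_⟩
    rw [hmate]
    exact h.1

theorem chord_valid (t : P) (l : List P) (t' : P) (h : Wk node mate (node t) l (node t'))
    (c : P × P) (hc : c ∈ chords mate t l t') : node c.1 = node c.2 := by
  induction l generalizing t with
  | nil =>
    rw [chords, List.mem_singleton] at hc
    rw [hc]
    exact h
  | cons d l ih =>
    rw [chords, List.mem_cons] at hc
    rcases hc with hc | hc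
    · rw [hc]
      exact h.1.symm
    · exact ih (mate d) h.2 hc

/-- total cost -/
def tc (cost : P → ℕ) (l : List P) : ℕ := (l.map cost).sum

theorem tc_append (cost : P → ℕ) (l m : List P) : tc cost (l ++ m) = tc cost l + tc cost m := by
  simp [tc]

theorem tc_rev (cost : P → ℕ) (hcm : ∀ p, cost (mate p) = cost p) (l : List P) :
    tc cost (rev mate l) = tc cost l := by
  unfold tc rev
  rw [List.map_reverse, List.sum_reverse, List.map_map]
  congr 1
  apply List.map_congr_left
  intro a _
  exact hcm a

/-- `l` is a cheapest walk of doors from `u` to `v` -/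
def Geo (cost : P → ℕ) (u : U) (l : List P) (v : U) : Prop :=
  Wk node mate u l v ∧ ∀ l', Wk node mate u l' v → tc cost l ≤ tc cost l'

theorem Geo_rev (hmate : ∀ p, mate (mate p) = p) (cost : P → ℕ)
    (hcm : ∀ p, cost (mate p) = cost p) (u : U) (l : List P) (v : U)
    (h : Geo node mate cost u l v) : Geo node mate cost v (rev mate l) u := by
  refine ⟨Wk_rev node mate hmate u l v h.1, ?_⟩
  intro l' h'
  rw [tc_rev mate cost hcm, ← tc_rev mate cost hcm l']
  exact h.2 _ (Wk_rev node mate hmate _ _ _ h')

theorem Geo_exchange (cost : P → ℕ) (u v u' v' w z : U) (l1 m l2 l1' m' l2' : List P)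
    (h : Geo node mate cost u (l1 ++ m ++ l2) v) (h' : Geo node mate cost u' (l1' ++ m' ++ l2') v')
    (a1 : Wk node mate u l1 w) (a2 : Wk node mate w m z) (a3 : Wk node mate z l2 v)
    (b1 : Wk node mate u' l1' w) (b2 : Wk node mate w m' z) (b3 : Wk node mate z l2' v') :
    Geo node mate cost u (l1 ++ m' ++ l2) v ∧ Geo node mate cost u' (l1' ++ m ++ l2') v' := by
  have e1 : Wk node mate u (l1 ++ m' ++ l2) v :=
    (Wk_append node mate _ _ _ _).2 ⟨z, (Wk_append node mate _ _ _ _).2 ⟨w, a1, b2⟩, a3⟩
  have e2 : Wk node mate u' (l1' ++ m ++ l2') v' :=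
    (Wk_append node mate _ _ _ _).2 ⟨z, (Wk_append node mate _ _ _ _).2 ⟨w, b1, a2⟩, b3⟩
  have f1 := h.2 _ e1
  have f2 := h'.2 _ e2
  simp only [tc_append] at f1 f2
  have f3 : tc cost m = tc cost m' := by omega
  refine ⟨⟨e1, ?_⟩, ⟨e2, ?_⟩⟩
  · intro l' hl'
    have := h.2 l' hl'
    simp only [tc_append] at this ⊢
    omega
  · intro l' hl'
    have := h'.2 l' hl'
    simp only [tc_append] at this ⊢
    omega

/-- a walk that repeats a node is not a geodesic -/
theorem Split.node_ne {node : P → U} {mate : P → P} {cost : P → ℕ} (hcost : ∀ p, 0 < cost p)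
    {t : P} {l : List P} {t' : P} {l1 m l2 : List P} {c1 c2 : P × P}
    (h : Split mate t l t' l1 m l2 c1 c2) (hg : Geo node mate cost (node t) l (node t')) :
    node c1.1 ≠ node c2.1 := by
  intro hn
  rw [h.fst, h.snd] at hn
  obtain ⟨hw, hmin⟩ := hg
  rw [h.eq, List.append_assoc] at hw
  obtain ⟨w, a1, a2⟩ := (Wk_append node mate _ _ _ _).1 hw
  obtain ⟨z, a3, a4⟩ := (Wk_append node mate _ _ _ _).1 a2
  have b1 := Wk_arr node mate t l1 w a1
  have b2 : node (arr mate t (l1 ++ m)) = z :=
    Wk_arr node mate t (l1 ++ m) z ((Wk_append node mate _ _ _ _).2 ⟨w, a1, a3⟩)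
  have hwz : w = z := by rw [← b1, ← b2]; exact hn
  subst hwz
  have h3 := hmin (l1 ++ l2) ((Wk_append node mate _ _ _ _).2 ⟨w, a1, a4⟩)
  rw [h.eq] at h3
  simp only [tc_append] at h3
  have h4 : 0 < tc cost m := by
    cases m with
    | nil => exact absurd rfl h.ne
    | cons d m =>
      have := hcost d
      simp only [tc, List.map_cons, List.sum_cons]
      omega
  omega

end Strand

end H12LN
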