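import Mathlib

/-!
# Minimisation of interleavings by exchanging sublists (LN-M)

Ports `P` (doors and terminals), `node : P → U` the block of a port, `mate : P → P` the
door on the other side of the same lane.  A strand from the port `t` to the port `t'` is the
list of the doors by which it leaves the blocks; its chords are `(t, d1), (mate d1, d2), ...,
(mate dm, t')`.
-/

namespace H12LN

open Multiset

/-- Two chords with ends `p q` and `x y` on a line (or circle) interleave. -/
def Il {α : Type*} [LinearOrder α] (p q x y : α) : Prop :=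
  (min p q < x ∧ x < max p q ∧ (y < min p q ∨ max p q < y)) ∨
  (min p q < y ∧ y < max p q ∧ (x < min p q ∨ max p q < x))

open Classical in
/-- indicator of interleaving -/
noncomputable def il {α : Type*} [LinearOrder α] (p q x y : α) : ℕ := if Il p q x y then 1 else 0

section IL
variable {α : Type*} [LinearOrder α]

theorem Il_swap_left (p q x y : α) : Il p q x y ↔ Il q p x y := by
  unfold Il
  rw [min_comm, max_comm]

theorem Il_swap_right (p q x y : α) : Il p q x y ↔ Il p q y x := by
  unfold Il
  tauto

theorem Il_of_comm (p q x y : α) (h0 : Il p q x y) : Il x y p q := by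
  unfold Il at h0 ⊢
  rcases le_total p q with h | h <;> rcases le_total x y with h' | h' <;>
  simp only [min_eq_left h, min_eq_left h', max_eq_right h, max_eq_right h',
    min_eq_right h, min_eq_right h', max_eq_left h, max_eq_left h'] at h0 ⊢ <;>
  rcases h0 with (⟨h1, h2, h3 | h3⟩ | ⟨h1, h2, h3 | h3⟩) <;>
  first
  | (exfalso; order)
  | (refine Or.inl ⟨?_, ?_, Or.inl ?_⟩ <;> order)
  | (refine Or.inl ⟨?_, ?_, Or.inr ?_⟩ <;> order)
  | (refine Or.inr ⟨?_, ?_, Or.inl ?_⟩ <;> order)
  | (refine Or.inr ⟨?_, ?_, Or.inr ?_⟩ <;> order)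

theorem Il_comm (p q x y : α) : Il p q x y ↔ Il x y p q :=
  ⟨Il_of_comm p q x y, Il_of_comm x y p q⟩

theorem Il_self (p q : α) : ¬ Il p q p q := by
  unfold Il
  rcases le_total p q with h | h <;>
  simp only [min_eq_left h, max_eq_right h,
    min_eq_right h, max_eq_left h] <;>
  rintro (⟨h1, h2, h3 | h3⟩ | ⟨h1, h2, h3 | h3⟩) <;> order

theorem il_smooth_cross {x y x' y' : α} (h : Il x y x' y') : ¬ Il x y' x' y := by
  intro h'
  unfold Il at h h'
  rcases le_total x y with h1 | h1 <;> rcases le_total x y' with h2 | h2 <;>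
  simp only [min_eq_left h1, max_eq_right h1, min_eq_right h1, max_eq_left h1,
    min_eq_left h2, max_eq_right h2, min_eq_right h2, max_eq_left h2] at h h' <;>
  rcases h with (⟨a1, a2, a3 | a3⟩ | ⟨a1, a2, a3 | a3⟩) <;>
  rcases h' with (⟨b1, b2, b3 | b3⟩ | ⟨b1, b2, b3 | b3⟩) <;> order

/-- the position of `z` relative to the chord `p q`: `0` on it, `1` inside, `2` outside -/
noncomputable def sd (p q z : α) : ℕ :=
  if z < min p q then 2 else if z = min p q then 0 else if z < max p q then 1
  else if z = max p q then 0 else 2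

theorem sd_key (p q z : α) : (sd p q z = 1 ↔ (min p q < z ∧ z < max p q)) ∧
    (sd p q z = 2 ↔ (z < min p q ∨ max p q < z)) := by
  have hmm : min p q ≤ max p q := min_le_max
  unfold sd
  split_ifs with h1 h2 h3 h4
  · refine ⟨⟨fun h => by simp at h, fun h => ?_⟩, ⟨fun _ => Or.inl h1, fun _ => rfl⟩⟩
    exact absurd h.1 (by order)
  · refine ⟨⟨fun h => by simp at h, fun h => ?_⟩, ⟨fun h => by simp at h, fun h => ?_⟩⟩
    · exact absurd h.1 (by order)
    · rcases h with h | h
      · exact absurd h (by order)
      · exact absurd h (by order)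
  · refine ⟨⟨fun _ => ⟨by order, h3⟩, fun _ => rfl⟩, ⟨fun h => by simp at h, fun h => ?_⟩⟩
    rcases h with h | h
    · exact absurd h (by order)
    · exact absurd h (by order)
  · refine ⟨⟨fun h => by simp at h, fun h => ?_⟩, ⟨fun h => by simp at h, fun h => ?_⟩⟩
    · exact absurd h.2 (by order)
    · rcases h with h | h
      · exact absurd h (by order)
      · exact absurd h (by order)
  · refine ⟨⟨fun h => by simp at h, fun h => ?_⟩, ⟨fun _ => Or.inr (by order), fun _ => rfl⟩⟩
    exact absurd h.2 (by order)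

theorem Il_iff_sd (p q x y : α) :
    Il p q x y ↔ (sd p q x = 1 ∧ sd p q y = 2) ∨ (sd p q x = 2 ∧ sd p q y = 1) := by
  unfold Il
  rw [(sd_key p q x).1, (sd_key p q x).2, (sd_key p q y).1, (sd_key p q y).2]
  tauto

theorem sd_one {x y x' y' : α} (h : Il x y x' y') (p q : α) (h1 : sd p q x = 1)
    (h2 : sd p q y ≠ 2) : sd p q x' = 1 ∨ sd p q y' = 1 := by
  rw [(sd_key p q x').1, (sd_key p q y').1]
  rw [(sd_key p q x).1] at h1
  rw [Ne, (sd_key p q y).2, not_or, not_lt, not_lt] at h2
  obtain ⟨a, b⟩ := h1
  obtain ⟨c, d⟩ := h2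
  unfold Il at h
  rcases le_total x y with h3 | h3 <;>
  simp only [min_eq_left h3, max_eq_right h3, min_eq_right h3, max_eq_left h3] at h <;>
  rcases h with (⟨a1, a2, -⟩ | ⟨a1, a2, -⟩)
  · exact Or.inl ⟨by order, by order⟩
  · exact Or.inr ⟨by order, by order⟩
  · exact Or.inl ⟨by order, by order⟩
  · exact Or.inr ⟨by order, by order⟩

theorem sd_two {x y x' y' : α} (h : Il x y x' y') (p q : α) (h1 : sd p q x = 2)
    (h2 : sd p q y ≠ 1) : sd p q x' = 2 ∨ sd p q y' = 2 := by
  rw [(sd_key p q x').2, (sd_key p q y').2]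
  rw [(sd_key p q x).2] at h1
  have h2' : y ≤ min p q ∨ max p q ≤ y := by
    rw [Ne, (sd_key p q y).1] at h2
    by_contra h3
    rw [not_or, not_le, not_le] at h3
    exact h2 h3
  have hmm : min p q ≤ max p q := min_le_max
  unfold Il at h
  generalize hm : min p q = m at *
  generalize hM : max p q = M at *
  rcases le_total x y with h3 | h3 <;>
  simp only [min_eq_left h3, max_eq_right h3, min_eq_right h3, max_eq_left h3] at h <;>
  rcases h1 with h1 | h1 <;> rcases h2' with h2' | h2' <;>
  rcases h with (⟨a1, a2, a3 | a3⟩ | ⟨a1, a2, a3 | a3⟩) <;>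
  first
  | (exfalso; order)
  | (refine Or.inl (Or.inl ?_); order)
  | (refine Or.inl (Or.inr ?_); order)
  | (refine Or.inr (Or.inl ?_); order)
  | (refine Or.inr (Or.inr ?_); order)

/-- **The smoothing inequality.** -/
theorem il_smooth {x y x' y' : α} (h : Il x y x' y') (p q : α) :
    il p q x y' + il p q x' y ≤ il p q x y + il p q x' y' := by
  have h' : Il x' y' x y := (Il_comm _ _ _ _).1 h
  have hs : Il y x x' y' := (Il_swap_left _ _ _ _).1 h
  have hs' : Il y' x' x y := (Il_swap_left _ _ _ _).1 h'
  have e1 := sd_one h p q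
  have e2 := sd_two h p q
  have e3 := sd_one hs p q
  have e4 := sd_two hs p q
  have e5 := sd_one h' p q
  have e6 := sd_two h' p q
  have e7 := sd_one hs' p q
  have e8 := sd_two hs' p q
  unfold il
  simp only [Il_iff_sd]
  generalize sd p q x = a at *
  generalize sd p q y = b at *
  generalize sd p q x' = c at *
  generalize sd p q y' = d at *
  clear h h' hs hs'
  split_ifs <;> omega

theorem il_comm (p q x y : α) : il p q x y = il x y p q := by
  unfold il
  by_cases h : Il p q x y
  · rw [if_pos h, if_pos ((Il_comm p q x y).1 h)]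
  · rw [if_neg h, if_neg (fun h' => h ((Il_comm p q x y).2 h'))]

theorem il_swap_left (p q x y : α) : il p q x y = il q p x y := by
  unfold il
  by_cases h : Il p q x y
  · rw [if_pos h, if_pos ((Il_swap_left p q x y).1 h)]
  · rw [if_neg h, if_neg (fun h' => h ((Il_swap_left p q x y).2 h'))]

theorem il_swap_right (p q x y : α) : il p q x y = il p q y x := by
  unfold il
  by_cases h : Il p q x y
  · rw [if_pos h, if_pos ((Il_swap_right p q x y).1 h)]
  · rw [if_neg h, if_neg (fun h' => h ((Il_swap_right p q x y).2 h'))]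

end IL

end H12LN
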